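import Pool.Agent.W51.CR.Count
import Pool.Agent.H510R2.Div

/-!
# Asymptotic bound: `N (3^j) = O_ε(3^{(1+ε) j})`
-/

set_option autoImplicit false

namespace Pool.Agent.W51.CR

open Finset Real
open scoped Classical

theorem asym (ε : ℝ) (hε : 0 < ε) :
    ∃ C : ℝ, 0 < C ∧ ∀ j : ℕ, (N (3 ^ j) : ℝ) ≤ C * (3 : ℝ) ^ ((1 + ε) * (j : ℝ)) := by
  -- parameters
  have h3 : (0 : ℝ) < 3 := by norm_num
  have hl3 : 0 < Real.log 3 := Real.log_pos (by norm_num)
  have hl49 : 0 < Real.log 49 := Real.log_pos (by norm_num)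
  set κ : ℝ := ε * Real.log 3 / (2 * Real.log 49) with hκ
  have hκpos : 0 < κ := by positivity
  have h49 : (49 : ℝ) ^ κ = (3 : ℝ) ^ (ε / 2) := by
    rw [Real.rpow_def_of_pos (by norm_num), Real.rpow_def_of_pos h3]
    congr 1
    rw [hκ]; field_simp
  obtain ⟨β, hβ⟩ := exists_nat_ge (2 * Real.exp 1 * (3 : ℝ) ^ (1 / κ) + 1)
  have hβ1 : 1 ≤ β := by
    have : (1 : ℝ) ≤ β := by
      have : 0 < 2 * Real.exp 1 * (3 : ℝ) ^ (1 / κ) := by positivity
      linarith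
    exact_mod_cast this
  have hβpos : (0 : ℝ) < β := by exact_mod_cast hβ1
  have hratio : 2 * Real.exp 1 / β ≤ (3 : ℝ) ^ (-(1 / κ)) := by
    rw [div_le_iff₀ hβpos, Real.rpow_neg h3.le]
    have hp : 0 < (3 : ℝ) ^ (1 / κ) := by positivity
    rw [inv_mul_eq_div, le_div_iff₀ hp]
    linarith
  set δ : ℝ := ε / (2 * (3 + β) * κ) with hδ
  have hδpos : 0 < δ := by positivity
  obtain ⟨D, hD, hdiv⟩ := Pool.Agent.H510R2.divisor_bound δ hδpos
  set C' : ℝ := D * (3 : ℝ) ^ (δ * (3 + β)) with hC'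
  have hC'pos : 0 < C' := by positivity
  refine ⟨9 * 49 * (4 + C'), by positivity, ?_⟩
  intro j
  set k : ℕ := ⌊κ * j⌋₊ + 1 with hk
  have hk1 : 1 ≤ k := by omega
  have hk_ge : κ * j ≤ k := by
    have := Nat.lt_floor_add_one (κ * j)
    rw [hk]; push_cast; linarith
  have hk_le : (k : ℝ) ≤ κ * j + 1 := by
    have := Nat.floor_le (by positivity : 0 ≤ κ * (j : ℝ))
    rw [hk]; push_cast; linarith
  -- divisor bound
  set T : ℝ := D * (3 : ℝ) ^ (δ * ((3 + β) * k)) with hT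
  have hTpos : 0 < T := by positivity
  have hTn : ∀ n : ℕ, 1 ≤ n → n ≤ 6 * k * 3 ^ (β * k) → (n.divisors.card : ℝ) ≤ T := by
    intro n hn1 hn2
    refine (hdiv n hn1).trans ?_
    rw [hT]
    apply mul_le_mul_of_nonneg_left _ hD.le
    have h6k : 6 * k * 3 ^ (β * k) ≤ 3 ^ ((3 + β) * k) := by
      have a1 : k < 3 ^ k := Nat.lt_pow_self (by norm_num)
      have a2 : 6 * k ≤ 3 ^ (3 * k) := by
        have a3 : 3 ^ (3 * k) = 3 ^ k * 3 ^ (2 * k) := by rw [← pow_add]; congr 1; ring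
        have a4 : 9 ≤ 3 ^ (2 * k) := by
          calc 9 = 3 ^ (2 * 1) := by norm_num
            _ ≤ 3 ^ (2 * k) := Nat.pow_le_pow_right (by norm_num) (by omega)
        rw [a3]
        calc 6 * k ≤ k * 9 := by omega
          _ ≤ 3 ^ k * 3 ^ (2 * k) := Nat.mul_le_mul a1.le a4
      calc 6 * k * 3 ^ (β * k) ≤ 3 ^ (3 * k) * 3 ^ (β * k) := Nat.mul_le_mul_right _ a2
        _ = 3 ^ ((3 + β) * k) := by rw [← pow_add]; congr 1; ring
    have hn3 : (n : ℝ) ≤ (3 : ℝ) ^ ((3 + β) * k) := by exact_mod_cast hn2.trans h6k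
    calc (n : ℝ) ^ δ ≤ ((3 : ℝ) ^ ((3 + β) * k)) ^ δ :=
          Real.rpow_le_rpow (by positivity) hn3 hδpos.le
      _ = (3 : ℝ) ^ (δ * ((3 + β) * k)) := by
          rw [← Real.rpow_natCast, ← Real.rpow_mul h3.le]
          congr 1
          push_cast
          ring
  have hmain := main_bound (3 ^ j) β k (Nat.one_le_pow _ _ (by norm_num)) hβ1 hk1 T hTn
  rw [max_eq_left hTpos.le] at hmain
  -- estimate each factor
  have f1 : (49 : ℝ) ^ k ≤ 49 * (3 : ℝ) ^ (ε / 2 * j) := by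
    calc (49 : ℝ) ^ k = (49 : ℝ) ^ (k : ℝ) := (Real.rpow_natCast _ _).symm
      _ ≤ (49 : ℝ) ^ (κ * j + 1) := Real.rpow_le_rpow_of_exponent_le (by norm_num) hk_le
      _ = 49 * (3 : ℝ) ^ (ε / 2 * j) := by
          rw [Real.rpow_add (by norm_num), Real.rpow_one, Real.rpow_mul (by norm_num), h49,
            ← Real.rpow_mul h3.le]
          ring
  have f2 : (2 * Real.exp 1 / β : ℝ) ^ k ≤ (3 : ℝ) ^ (-(j : ℝ)) := by
    calc (2 * Real.exp 1 / β : ℝ) ^ k ≤ ((3 : ℝ) ^ (-(1 / κ))) ^ k :=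
          pow_le_pow_left₀ (by positivity) hratio _
      _ = (3 : ℝ) ^ (-(1 / κ) * k) := by
          rw [← Real.rpow_natCast, ← Real.rpow_mul h3.le]
      _ ≤ (3 : ℝ) ^ (-(j : ℝ)) := by
          apply Real.rpow_le_rpow_of_exponent_le (by norm_num)
          have : (j : ℝ) ≤ 1 / κ * k := by
            rw [div_mul_eq_mul_div, one_mul, le_div_iff₀ hκpos]
            linarith
          linarith
  have f3 : T ≤ C' * (3 : ℝ) ^ (ε / 2 * j) := by
    rw [hT, hC', mul_assoc]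
    apply mul_le_mul_of_nonneg_left _ hD.le
    rw [← Real.rpow_add h3]
    apply Real.rpow_le_rpow_of_exponent_le (by norm_num)
    have e1 : δ * (3 + β) * κ = ε / 2 := by
      rw [hδ]; field_simp
    have e2 : δ * ((3 + β) * k) ≤ δ * (3 + β) * (κ * j + 1) := by
      rw [← mul_assoc]
      exact mul_le_mul_of_nonneg_left hk_le (by positivity)
    have e3 : δ * (3 + β) * (κ * j + 1) = δ * (3 + β) + ε / 2 * j := by
      rw [← e1]; ring
    linarith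
  have f4 : ((3 ^ j : ℕ) : ℝ) = (3 : ℝ) ^ (j : ℝ) := by push_cast; exact (Real.rpow_natCast _ _).symm
  have f5 : 4 * ((3 ^ j : ℕ) : ℝ) * (2 * Real.exp 1 / β : ℝ) ^ k ≤ 4 := by
    rw [f4]
    calc 4 * (3 : ℝ) ^ (j : ℝ) * (2 * Real.exp 1 / β : ℝ) ^ k
        ≤ 4 * (3 : ℝ) ^ (j : ℝ) * (3 : ℝ) ^ (-(j : ℝ)) :=
          mul_le_mul_of_nonneg_left f2 (by positivity)
      _ = 4 := by rw [mul_assoc, ← Real.rpow_add h3]; simp
  have g1 : (1 : ℝ) ≤ (3 : ℝ) ^ (ε / 2 * j) := by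
    apply Real.one_le_rpow (by norm_num); positivity
  have f6 : 4 * ((3 ^ j : ℕ) : ℝ) * (2 * Real.exp 1 / β : ℝ) ^ k + T ≤
      (4 + C') * (3 : ℝ) ^ (ε / 2 * j) := by
    nlinarith [f5, f3, g1]
  calc (N (3 ^ j) : ℝ)
      ≤ 9 * ((3 ^ j : ℕ) : ℝ) * 49 ^ k *
          (4 * ((3 ^ j : ℕ) : ℝ) * (2 * Real.exp 1 / β : ℝ) ^ k + T) := hmain
    _ ≤ 9 * ((3 ^ j : ℕ) : ℝ) * (49 * (3 : ℝ) ^ (ε / 2 * j)) *
          ((4 + C') * (3 : ℝ) ^ (ε / 2 * j)) := by
        apply mul_le_mul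
        · exact mul_le_mul_of_nonneg_left f1 (by positivity)
        · exact f6
        · positivity
        · positivity
    _ = 9 * 49 * (4 + C') * (3 : ℝ) ^ ((1 + ε) * (j : ℝ)) := by
        rw [f4]
        have : (1 + ε) * (j : ℝ) = j + (ε / 2 * j + ε / 2 * j) := by ring
        rw [this, Real.rpow_add h3, Real.rpow_add h3]
        ring

end Pool.Agent.W51.CR
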