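import Pool.Agent.W51.CR.Moment

/-!
# Counting rationals of the Cantor set with denominator in `[Q, 3Q)`
-/

set_option autoImplicit false

namespace Pool.Agent.W51.CR

open Finset Real
open scoped Classical

/-- number of pairs `(p,q)`, `Q ≤ q < 3Q`, `0 ≤ p < q`, with `p/q` in the Cantor set -/
noncomputable def N (Q : ℕ) : ℕ :=
  ∑ q ∈ Ico Q (3 * Q), ((range q).filter (fun p : ℕ => ((p : ℝ) / (q : ℝ)) ∈ cantorSet)).card

lemma abs_v_le {I : ℕ} (a : Fin I × Bool) : |v a| ≤ 3 ^ I := by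
  unfold v
  have h1 : |(if a.2 = true then (1 : ℤ) else -1)| = 1 := by
    split_ifs <;> simp
  rw [abs_mul, h1, one_mul, abs_of_nonneg (by positivity)]
  exact pow_le_pow_right₀ (by norm_num) a.1.2.le

lemma abs_nn_le {I m : ℕ} (w : Fin m → Fin I × Bool) : |nn w| ≤ m * 3 ^ I := by
  unfold nn
  calc |∑ r, v (w r)| ≤ ∑ r, |v (w r)| := Finset.abs_sum_le_sum_abs _ _
    _ ≤ ∑ _r : Fin m, (3 : ℤ) ^ I := Finset.sum_le_sum (fun r _ => abs_v_le _)
    _ = m * 3 ^ I := by simp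

/-- the number of `q` in `[Q,3Q)` dividing a frequency -/
lemma div_count (Q I k f : ℕ) (hQ : 1 ≤ Q) (hf : 1 ≤ f) (hf3 : f ≤ 3) (T : ℝ)
    (hT : ∀ n : ℕ, 1 ≤ n → n ≤ 6 * k * 3 ^ I → (n.divisors.card : ℝ) ≤ T)
    (w : Fin (2 * k) → Fin I × Bool) :
    (((Ico Q (3 * Q)).filter (fun q : ℕ => (q : ℤ) ∣ (f : ℤ) * nn w)).card : ℝ) ≤
      (if nn w = 0 then 2 * (Q : ℝ) else 0) + max T 0 := by
  by_cases h : nn w = 0
  · rw [if_pos h]
    have h1 : ((Ico Q (3 * Q)).filter (fun q : ℕ => (q : ℤ) ∣ (f : ℤ) * nn w)).card ≤ 2 * Q := by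
      refine (Finset.card_filter_le _ _).trans ?_
      rw [Nat.card_Ico]; omega
    have h2 : (((Ico Q (3 * Q)).filter (fun q : ℕ => (q : ℤ) ∣ (f : ℤ) * nn w)).card : ℝ) ≤
        2 * (Q : ℝ) := by exact_mod_cast h1
    have := le_max_right T 0
    linarith
  · rw [if_neg h, zero_add]
    set n : ℕ := ((f : ℤ) * nn w).natAbs with hn
    have hne : (f : ℤ) * nn w ≠ 0 := mul_ne_zero (by exact_mod_cast (by omega : f ≠ 0)) h
    have hn1 : 1 ≤ n := by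
      have := Int.natAbs_pos.mpr hne
      omega
    have hn2 : n ≤ 6 * k * 3 ^ I := by
      have h1 := abs_nn_le w
      have h2 : |(f : ℤ) * nn w| ≤ 3 * ((2 * k : ℕ) * 3 ^ I) := by
        rw [abs_mul]
        have : |(f : ℤ)| ≤ 3 := by rw [abs_of_nonneg (by positivity)]; exact_mod_cast hf3
        exact mul_le_mul this h1 (abs_nonneg _) (by norm_num)
      have h3 : (n : ℤ) ≤ 3 * ((2 * k : ℕ) * 3 ^ I) := by
        rw [hn, Int.natCast_natAbs]; exact h2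
      have h4 : (3 : ℤ) * ((2 * k : ℕ) * 3 ^ I) = ((6 * k * 3 ^ I : ℕ) : ℤ) := by push_cast; ring
      rw [h4] at h3
      exact_mod_cast h3
    refine le_trans ?_ ((hT n hn1 hn2).trans (le_max_left _ _))
    have : ((Ico Q (3 * Q)).filter (fun q : ℕ => (q : ℤ) ∣ (f : ℤ) * nn w)) ⊆ n.divisors := by
      intro q hq
      rw [mem_filter] at hq
      rw [Nat.mem_divisors]
      refine ⟨?_, by omega⟩
      rw [hn]
      exact Int.natCast_dvd.mp hq.2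
    exact_mod_cast Finset.card_le_card this

lemma sum_div_count (Q I k f : ℕ) (hQ : 1 ≤ Q) (hf : 1 ≤ f) (hf3 : f ≤ 3) (T : ℝ)
    (hT : ∀ n : ℕ, 1 ≤ n → n ≤ 6 * k * 3 ^ I → (n.divisors.card : ℝ) ≤ T) :
    ∑ q ∈ Ico Q (3 * Q),
      ((univ.filter (fun w : Fin (2 * k) → Fin I × Bool => (q : ℤ) ∣ (f : ℤ) * nn w)).card : ℝ) ≤
      2 * Q * (Z I (2 * k) : ℝ) + (2 * I : ℝ) ^ (2 * k) * max T 0 := by
  have h1 : ∑ q ∈ Ico Q (3 * Q),
      ((univ.filter (fun w : Fin (2 * k) → Fin I × Bool => (q : ℤ) ∣ (f : ℤ) * nn w)).card : ℝ) =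
      ∑ w : Fin (2 * k) → Fin I × Bool,
        (((Ico Q (3 * Q)).filter (fun q : ℕ => (q : ℤ) ∣ (f : ℤ) * nn w)).card : ℝ) := by
    have e1 : ∀ q : ℕ,
        ((univ.filter (fun w : Fin (2 * k) → Fin I × Bool => (q : ℤ) ∣ (f : ℤ) * nn w)).card : ℝ) =
        ∑ w : Fin (2 * k) → Fin I × Bool, if (q : ℤ) ∣ (f : ℤ) * nn w then (1 : ℝ) else 0 := by
      intro q; rw [Finset.card_filter]; push_cast; rfl
    have e2 : ∀ w : Fin (2 * k) → Fin I × Bool,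
        (((Ico Q (3 * Q)).filter (fun q : ℕ => (q : ℤ) ∣ (f : ℤ) * nn w)).card : ℝ) =
        ∑ q ∈ Ico Q (3 * Q), if (q : ℤ) ∣ (f : ℤ) * nn w then (1 : ℝ) else 0 := by
      intro w; rw [Finset.card_filter]; push_cast; rfl
    rw [Finset.sum_congr rfl (fun q _ => e1 q), Finset.sum_comm]
    exact (Finset.sum_congr rfl (fun w _ => e2 w)).symm
  rw [h1]
  refine (Finset.sum_le_sum (fun w _ => div_count Q I k f hQ hf hf3 T hT w)).trans ?_
  rw [Finset.sum_add_distrib, ← Finset.sum_filter, Finset.sum_const, Finset.sum_const]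
  rw [nsmul_eq_mul, nsmul_eq_mul]
  have h2 : ((univ : Finset (Fin (2 * k) → Fin I × Bool)).card : ℝ) = (2 * I : ℝ) ^ (2 * k) := by
    rw [Finset.card_univ, Fintype.card_fun, Fintype.card_prod, Fintype.card_fin, Fintype.card_bool,
      Fintype.card_fin]
    push_cast
    ring
  rw [h2]
  unfold Z
  apply le_of_eq
  ring

/-- The counting inequality. -/
lemma count_le (Q I k : ℕ) (hQ : 1 ≤ Q) (T : ℝ)
    (hT : ∀ n : ℕ, 1 ≤ n → n ≤ 6 * k * 3 ^ I → (n.divisors.card : ℝ) ≤ T) :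
    ((I : ℝ) / 7) ^ (2 * k) * (N Q : ℝ) ≤
      9 * Q * (2 * Q * ((1 / 2) ^ (2 * k) * (Z I (2 * k) : ℝ)) + (I : ℝ) ^ (2 * k) * max T 0) := by
  have hpos : ∀ s : ℝ, 0 ≤ s ^ (2 * k) := fun s => (even_two_mul k).pow_nonneg s
  -- one term
  have hf : ∀ f : ℕ, 1 ≤ f → f ≤ 3 →
      ∑ q ∈ Ico Q (3 * Q), ∑ p ∈ range q, S I ((f : ℝ) * ((p : ℝ) / q)) ^ (2 * k) ≤
        3 * Q * (2 * Q * ((1 / 2) ^ (2 * k) * (Z I (2 * k) : ℝ)) + (I : ℝ) ^ (2 * k) * max T 0) := by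
    intro f hf1 hf3
    have h1 : ∀ q ∈ Ico Q (3 * Q),
        ∑ p ∈ range q, S I ((f : ℝ) * ((p : ℝ) / q)) ^ (2 * k) ≤
          3 * Q * (1 / 2) ^ (2 * k) *
            ((univ.filter (fun w : Fin (2 * k) → Fin I × Bool =>
              (q : ℤ) ∣ (f : ℤ) * nn w)).card : ℝ) := by
      intro q hq
      rw [mem_Ico] at hq
      rw [moment I (2 * k) q f (by omega)]
      apply mul_le_mul_of_nonneg_right _ (by positivity)
      apply mul_le_mul_of_nonneg_right _ (by positivity)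
      exact_mod_cast hq.2.le
    refine (Finset.sum_le_sum h1).trans ?_
    rw [← Finset.mul_sum]
    have h2 := sum_div_count Q I k f hQ hf1 hf3 T hT
    calc _ ≤ 3 * Q * (1 / 2) ^ (2 * k) *
          (2 * Q * (Z I (2 * k) : ℝ) + (2 * I : ℝ) ^ (2 * k) * max T 0) :=
          mul_le_mul_of_nonneg_left h2 (by positivity)
      _ = _ := by
          have : (1 / 2 : ℝ) ^ (2 * k) * (2 * I : ℝ) ^ (2 * k) = (I : ℝ) ^ (2 * k) := by
            rw [← mul_pow]; congr 1; ring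
          rw [← this]; ring
  -- lower bound
  have hlow : ((I : ℝ) / 7) ^ (2 * k) * (N Q : ℝ) ≤
      ∑ q ∈ Ico Q (3 * Q), ∑ p ∈ range q,
        (S I (((1 : ℕ) : ℝ) * ((p : ℝ) / q)) ^ (2 * k) + S I (((2 : ℕ) : ℝ) * ((p : ℝ) / q)) ^ (2 * k) +
          S I (((3 : ℕ) : ℝ) * ((p : ℝ) / q)) ^ (2 * k)) := by
    unfold N
    push_cast
    rw [Finset.mul_sum]
    apply Finset.sum_le_sum
    intro q _
    have hc : (((range q).filter (fun p : ℕ => ((p : ℝ) / (q : ℝ)) ∈ cantorSet)).card : ℝ) =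
        ∑ p ∈ (range q).filter (fun p : ℕ => ((p : ℝ) / (q : ℝ)) ∈ cantorSet), (1 : ℝ) := by simp
    rw [hc, Finset.mul_sum]
    calc _ ≤ ∑ p ∈ (range q).filter (fun p : ℕ => ((p : ℝ) / (q : ℝ)) ∈ cantorSet),
          (S I (1 * ((p : ℝ) / q)) ^ (2 * k) + S I (2 * ((p : ℝ) / q)) ^ (2 * k) +
            S I (3 * ((p : ℝ) / q)) ^ (2 * k)) := by
          apply Finset.sum_le_sum
          intro p hp
          rw [mem_filter] at hp
          rw [mul_one]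
          exact pow_ineq hp.2 I k
      _ ≤ _ := by
          apply Finset.sum_le_sum_of_subset_of_nonneg (Finset.filter_subset _ _)
          intro p _ _
          have a1 := hpos (S I (1 * ((p : ℝ) / q)))
          have a2 := hpos (S I (2 * ((p : ℝ) / q)))
          have a3 := hpos (S I (3 * ((p : ℝ) / q)))
          linarith
  refine hlow.trans ?_
  have hsplit : ∑ q ∈ Ico Q (3 * Q), ∑ p ∈ range q,
        (S I (((1 : ℕ) : ℝ) * ((p : ℝ) / q)) ^ (2 * k) + S I (((2 : ℕ) : ℝ) * ((p : ℝ) / q)) ^ (2 * k) +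
          S I (((3 : ℕ) : ℝ) * ((p : ℝ) / q)) ^ (2 * k)) =
      ∑ q ∈ Ico Q (3 * Q), ∑ p ∈ range q, S I (((1 : ℕ) : ℝ) * ((p : ℝ) / q)) ^ (2 * k) +
      ∑ q ∈ Ico Q (3 * Q), ∑ p ∈ range q, S I (((2 : ℕ) : ℝ) * ((p : ℝ) / q)) ^ (2 * k) +
      ∑ q ∈ Ico Q (3 * Q), ∑ p ∈ range q, S I (((3 : ℕ) : ℝ) * ((p : ℝ) / q)) ^ (2 * k) := by
    simp only [Finset.sum_add_distrib]
  rw [hsplit]
  have b1 := hf 1 (by norm_num) (by norm_num)
  have b2 := hf 2 (by norm_num) (by norm_num)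
  have b3 := hf 3 (by norm_num) (by norm_num)
  linarith

/-- The counting inequality with the parameters `I = β k`. -/
theorem main_bound (Q β k : ℕ) (hQ : 1 ≤ Q) (hβ : 1 ≤ β) (hk : 1 ≤ k) (T : ℝ)
    (hT : ∀ n : ℕ, 1 ≤ n → n ≤ 6 * k * 3 ^ (β * k) → (n.divisors.card : ℝ) ≤ T) :
    (N Q : ℝ) ≤ 9 * Q * 49 ^ k * (4 * Q * (2 * Real.exp 1 / β) ^ k + max T 0) := by
  set I := β * k with hI
  have hkpos : (0 : ℝ) < k := by exact_mod_cast hk
  have hβpos : (0 : ℝ) < β := by exact_mod_cast hβ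
  have hIpos : (0 : ℝ) < (I : ℝ) := by rw [hI]; push_cast; positivity
  have h1 := count_le Q I k hQ T hT
  -- zero frequency
  have hZ : (1 / 2 : ℝ) ^ (2 * k) * (Z I (2 * k) : ℝ) ≤
      (I : ℝ) ^ (2 * k) * (2 * (2 * Real.exp 1 / β) ^ k) := by
    set t : ℝ := Real.sqrt (2 / β) with ht
    have htpos : 0 < t := Real.sqrt_pos.mpr (by positivity)
    have ht2 : t ^ 2 = 2 / β := Real.sq_sqrt (by positivity)
    have h2 := Z_le I k t htpos
    refine h2.trans ?_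
    have e1 : t ^ (2 * k) = (2 / β : ℝ) ^ k := by rw [pow_mul, ht2]
    have e2 : Real.exp ((I : ℝ) * (t ^ 2 / 2)) = Real.exp 1 ^ k := by
      rw [ht2, ← Real.exp_nat_mul]
      congr 1
      rw [hI]; push_cast; field_simp
    have e3 : ((2 * k).factorial : ℝ) ≤ (2 * k : ℝ) ^ (2 * k) := by
      exact_mod_cast Nat.factorial_le_pow (2 * k)
    rw [e1, e2]
    have e4 : (I : ℝ) = β * k := by rw [hI]; push_cast; ring
    calc 2 * ((2 * k).factorial : ℝ) / (2 / β : ℝ) ^ k * Real.exp 1 ^ k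
        ≤ 2 * (2 * k : ℝ) ^ (2 * k) / (2 / β : ℝ) ^ k * Real.exp 1 ^ k := by gcongr
      _ = (I : ℝ) ^ (2 * k) * (2 * (2 * Real.exp 1 / β) ^ k) := by
          rw [e4]
          rw [pow_mul, pow_mul, div_pow, div_pow, mul_pow (2 : ℝ) (Real.exp 1) k]
          have e5 : ((2 * (k : ℝ)) ^ 2) ^ k = 4 ^ k * ((k : ℝ) ^ 2) ^ k := by
            rw [← mul_pow]; congr 1; ring
          have e6 : (((β : ℝ) * k) ^ 2) ^ k = (β : ℝ) ^ k * (β : ℝ) ^ k * ((k : ℝ) ^ 2) ^ k := by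
            rw [← mul_pow, ← mul_pow]; congr 1; ring
          have e7 : (4 : ℝ) ^ k = 2 ^ k * 2 ^ k := by rw [← mul_pow]; norm_num
          rw [e5, e6, e7]
          have b1 : (β : ℝ) ^ k ≠ 0 := by positivity
          have b2 : (2 : ℝ) ^ k ≠ 0 := by positivity
          field_simp
  have hI2 : (0 : ℝ) < (I : ℝ) ^ (2 * k) := by positivity
  have h3 : ((I : ℝ) / 7) ^ (2 * k) * (N Q : ℝ) ≤
      (I : ℝ) ^ (2 * k) * (9 * Q * (4 * Q * (2 * Real.exp 1 / β) ^ k + max T 0)) := by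
    refine h1.trans ?_
    have hQ0 : (0 : ℝ) ≤ Q := by positivity
    have := mul_le_mul_of_nonneg_left hZ (by positivity : (0:ℝ) ≤ 9 * Q * (2 * Q))
    nlinarith [this]
  have h4 : ((I : ℝ) / 7) ^ (2 * k) = (I : ℝ) ^ (2 * k) / 49 ^ k := by
    rw [div_pow]; congr 1; rw [pow_mul]; norm_num
  rw [h4] at h3
  have h5 : (N Q : ℝ) / 49 ^ k ≤ 9 * Q * (4 * Q * (2 * Real.exp 1 / β) ^ k + max T 0) := by
    have h6 : (I : ℝ) ^ (2 * k) * ((N Q : ℝ) / 49 ^ k) ≤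
        (I : ℝ) ^ (2 * k) * (9 * Q * (4 * Q * (2 * Real.exp 1 / β) ^ k + max T 0)) := by
      refine le_trans (le_of_eq ?_) h3
      ring
    exact le_of_mul_le_mul_left h6 hI2
  rw [div_le_iff₀ (by positivity)] at h5
  linarith

end Pool.Agent.W51.CR
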