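import Pool.Agent.W51.CR.Trig

/-!
# Moments of the lacunary cosine sum over the rationals with a given denominator
-/

set_option autoImplicit false

namespace Pool.Agent.W51.CR

open Finset Real

/-- signed power of three attached to a pair (exponent, sign) -/
def v {I : ℕ} (a : Fin I × Bool) : ℤ := (if a.2 then 1 else -1) * 3 ^ (a.1 : ℕ)

/-- the frequency attached to a word -/
def nn {I m : ℕ} (w : Fin m → Fin I × Bool) : ℤ := ∑ r, v (w r)

/-- the character `exp(2πi t)` -/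
noncomputable def e (t : ℝ) : ℂ := Complex.exp (2 * π * t * Complex.I)

lemma e_add (s t : ℝ) : e (s + t) = e s * e t := by
  unfold e
  rw [← Complex.exp_add]
  congr 1
  push_cast
  ring

lemma e_zero : e 0 = 1 := by simp [e]

lemma e_sum {ι : Type*} (s : Finset ι) (g : ι → ℝ) : e (∑ i ∈ s, g i) = ∏ i ∈ s, e (g i) := by
  classical
  induction s using Finset.induction_on with
  | empty => simp [e_zero]
  | insert a s ha ih => rw [Finset.sum_insert ha, Finset.prod_insert ha, e_add, ih]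

lemma e_int (n : ℤ) : e n = 1 := by
  unfold e
  have : 2 * (π:ℂ) * ((n : ℝ) : ℂ) * Complex.I = n * (2 * π * Complex.I) := by push_cast; ring
  rw [this, Complex.exp_int_mul_two_pi_mul_I]

lemma cos_eq_e (t : ℝ) : ((Real.cos (2 * π * t) : ℝ) : ℂ) = (e t + e (-t)) / 2 := by
  rw [Complex.ofReal_cos, Complex.cos]
  unfold e
  push_cast
  congr 2
  ring_nf

/-- the cosine sum as a sum of characters -/
lemma S_eq (I : ℕ) (x : ℝ) :
    ((S I x : ℝ) : ℂ) = (1 / 2) * ∑ a : Fin I × Bool, e ((v a : ℝ) * x) := by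
  unfold S
  push_cast
  rw [Fintype.sum_prod_type, Finset.sum_range, Finset.mul_sum]
  apply Finset.sum_congr rfl
  intro i _
  have h := cos_eq_e (3 ^ (i : ℕ) * x)
  push_cast at h
  rw [h]
  rw [Fintype.sum_bool]
  unfold v
  push_cast
  simp only [if_true]
  have h1 : (1 : ℝ) * 3 ^ (i : ℕ) * x = 3 ^ (i : ℕ) * x := by ring
  have h2 : (if false = true then (1 : ℝ) else -1) * 3 ^ (i : ℕ) * x = - (3 ^ (i : ℕ) * x) := by
    simp
  rw [h1]
  have h3 : (-1 : ℝ) * 3 ^ (i : ℕ) * x = - (3 ^ (i : ℕ) * x) := by ring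
  rw [h3]
  ring

lemma S_pow (I m : ℕ) (x : ℝ) :
    ((S I x ^ m : ℝ) : ℂ) = (1 / 2) ^ m * ∑ w : Fin m → Fin I × Bool, e ((nn w : ℝ) * x) := by
  push_cast
  rw [S_eq, mul_pow]
  congr 1
  rw [Fintype.sum_pow]
  apply Finset.sum_congr rfl
  intro w _
  rw [← e_sum]
  congr 1
  unfold nn
  push_cast
  rw [Finset.sum_mul]

/-- orthogonality -/
lemma char_sum (q : ℕ) (hq : 0 < q) (N : ℤ) :
    ∑ p ∈ range q, e ((N : ℝ) * ((p : ℝ) / q)) = if (q : ℤ) ∣ N then (q : ℂ) else 0 := by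
  have hq' : (q : ℝ) ≠ 0 := by positivity
  have hpow : ∀ p : ℕ, e ((N : ℝ) * ((p : ℝ) / q)) = (e ((N : ℝ) / q)) ^ p := by
    intro p
    unfold e
    rw [← Complex.exp_nat_mul]
    congr 1
    push_cast
    ring
  split_ifs with h
  · obtain ⟨c, hc⟩ := h
    have : ∀ p ∈ range q, e ((N : ℝ) * ((p : ℝ) / q)) = 1 := by
      intro p _
      have : (N : ℝ) * ((p : ℝ) / q) = ((c * p : ℤ) : ℝ) := by
        rw [hc]; push_cast; field_simp
      rw [this, e_int]
    rw [Finset.sum_congr rfl this]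
    simp
  · rw [Finset.sum_congr rfl (fun p _ => hpow p)]
    set z := e ((N : ℝ) / q) with hz
    have hz1 : z ≠ 1 := by
      intro h1
      apply h
      rw [hz] at h1
      unfold e at h1
      rw [Complex.exp_eq_one_iff] at h1
      obtain ⟨n, hn⟩ := h1
      have hI : (2 * (π : ℂ) * Complex.I) ≠ 0 := by
        simp [Real.pi_ne_zero]
      have h2 : (((N : ℝ) / q : ℝ) : ℂ) = n := by
        have : (2 * (π : ℂ) * Complex.I) * (((N : ℝ) / q : ℝ) : ℂ) = (2 * (π : ℂ) * Complex.I) * n := by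
          linear_combination hn
        exact mul_left_cancel₀ hI this
      have h3 : ((N : ℝ) / q : ℝ) = (n : ℝ) := by exact_mod_cast h2
      have h4 : (N : ℝ) = q * n := by field_simp at h3; linarith
      exact ⟨n, by exact_mod_cast h4⟩
    have hzq : z ^ q = 1 := by
      rw [← hpow q]
      have : (N : ℝ) * ((q : ℝ) / q) = (N : ℝ) := by field_simp
      rw [this, e_int]
    have := geom_sum_eq hz1 q
    rw [this, hzq]
    simp

/-- **Moment identity.** -/
lemma moment (I m q f : ℕ) (hq : 0 < q) :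
    ∑ p ∈ range q, S I ((f : ℝ) * ((p : ℝ) / q)) ^ m =
      (q : ℝ) * (1 / 2) ^ m *
        ((univ.filter (fun w : Fin m → Fin I × Bool => (q : ℤ) ∣ (f : ℤ) * nn w)).card : ℝ) := by
  have hC : ((∑ p ∈ range q, S I ((f : ℝ) * ((p : ℝ) / q)) ^ m : ℝ) : ℂ) =
      (((q : ℝ) * (1 / 2) ^ m *
        ((univ.filter (fun w : Fin m → Fin I × Bool => (q : ℤ) ∣ (f : ℤ) * nn w)).card : ℝ) : ℝ) : ℂ)
      := by
    rw [Complex.ofReal_sum]
    rw [Finset.sum_congr rfl (fun (p : ℕ) _ => S_pow I m ((f : ℝ) * ((p : ℝ) / q)))]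
    rw [← Finset.mul_sum, Finset.sum_comm]
    have : ∀ w ∈ (univ : Finset (Fin m → Fin I × Bool)),
        ∑ p ∈ range q, e ((nn w : ℝ) * ((f : ℝ) * ((p : ℝ) / q))) =
          if (q : ℤ) ∣ (f : ℤ) * nn w then (q : ℂ) else 0 := by
      intro w _
      rw [← char_sum q hq]
      apply Finset.sum_congr rfl
      intro p _
      congr 1
      push_cast
      ring
    rw [Finset.sum_congr rfl this, ← Finset.sum_filter, Finset.sum_const, nsmul_eq_mul]
    push_cast
    ring
  exact_mod_cast hC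

/-- **Riesz product average.** -/
lemma riesz (a b : ℝ) (I : ℕ) :
    ∑ u ∈ range (3 ^ I), ∏ i ∈ range I, (a + b * Real.cos (2 * π * (3 ^ i * ((u : ℝ) / 3 ^ I)))) =
      3 ^ I * a ^ I := by
  induction I with
  | zero => simp
  | succ I ih =>
    set G : ℕ → ℝ := fun u =>
      ∏ i ∈ range I, (a + b * Real.cos (2 * π * (3 ^ i * ((u : ℝ) / 3 ^ I)))) with hG
    have hper : ∀ u w : ℕ, G (u + w * 3 ^ I) = G u := by
      intro u w
      simp only [hG]
      apply Finset.prod_congr rfl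
      intro i _
      have : (3:ℝ) ^ i * (((u + w * 3 ^ I : ℕ) : ℝ) / 3 ^ I) =
          3 ^ i * ((u : ℝ) / 3 ^ I) + (((3 ^ i * w : ℕ) : ℤ) : ℝ) := by
        push_cast
        field_simp
      rw [this, cos_int_shift]
    have hfac : ∀ u : ℕ, ∏ i ∈ range (I + 1),
        (a + b * Real.cos (2 * π * (3 ^ i * ((u : ℝ) / 3 ^ (I + 1))))) =
        G u * (a + b * Real.cos (2 * π * ((u : ℝ) / 3 ^ (I + 1)))) := by
      intro u
      rw [Finset.prod_range_succ']
      simp only [hG, pow_zero, one_mul]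
      congr 1
      apply Finset.prod_congr rfl
      intro i _
      have : (3:ℝ) ^ (i + 1) * ((u : ℝ) / 3 ^ (I + 1)) = 3 ^ i * ((u : ℝ) / 3 ^ I) := by
        field_simp
        ring
      rw [this]
    rw [Finset.sum_congr rfl (fun u _ => hfac u)]
    have hsplit : (3 : ℕ) ^ (I + 1) = 3 ^ I + 3 ^ I + 3 ^ I := by ring
    rw [hsplit, Finset.sum_range_add, Finset.sum_range_add]
    rw [← Finset.sum_add_distrib, ← Finset.sum_add_distrib]
    have hterm : ∀ u ∈ range (3 ^ I),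
        G u * (a + b * Real.cos (2 * π * ((u : ℝ) / 3 ^ (I + 1)))) +
        G (3 ^ I + u) * (a + b * Real.cos (2 * π * (((3 ^ I + u : ℕ) : ℝ) / 3 ^ (I + 1)))) +
        G (3 ^ I + 3 ^ I + u) *
          (a + b * Real.cos (2 * π * (((3 ^ I + 3 ^ I + u : ℕ) : ℝ) / 3 ^ (I + 1)))) =
        3 * a * G u := by
      intro u _
      have g1 : G (3 ^ I + u) = G u := by
        have := hper u 1; rwa [one_mul, add_comm] at this
      have g2 : G (3 ^ I + 3 ^ I + u) = G u := by
        have := hper u 2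
        rw [← this]; congr 1; ring
      rw [g1, g2]
      set t := 2 * π * ((u : ℝ) / 3 ^ (I + 1)) with ht
      have t1 : 2 * π * (((3 ^ I + u : ℕ) : ℝ) / 3 ^ (I + 1)) = (t - π / 3) + π := by
        rw [ht]; push_cast; rw [pow_succ]; field_simp; ring
      have t2 : 2 * π * (((3 ^ I + 3 ^ I + u : ℕ) : ℝ) / 3 ^ (I + 1)) = (t + π / 3) + π := by
        rw [ht]; push_cast; rw [pow_succ]; field_simp; ring
      rw [t1, t2, Real.cos_add_pi, Real.cos_add_pi, Real.cos_sub, Real.cos_add,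
        Real.cos_pi_div_three]
      ring
    rw [Finset.sum_congr rfl hterm, ← Finset.mul_sum, ih]
    ring

lemma abs_cos_le (t : ℝ) : |Real.cos t| ≤ 1 := Real.abs_cos_le_one t

/-- exponential moment bound -/
lemma exp_moment (I : ℕ) (t : ℝ) :
    ∑ u ∈ range (3 ^ I), Real.exp (t * S I ((u : ℝ) / 3 ^ I)) ≤ 3 ^ I * Real.exp (I * (t ^ 2 / 2)) := by
  calc ∑ u ∈ range (3 ^ I), Real.exp (t * S I ((u : ℝ) / 3 ^ I))
      ≤ ∑ u ∈ range (3 ^ I), ∏ i ∈ range I,
          (Real.cosh t + Real.sinh t * Real.cos (2 * π * (3 ^ i * ((u : ℝ) / 3 ^ I)))) := by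
        apply Finset.sum_le_sum
        intro u _
        unfold S
        rw [Finset.mul_sum, Real.exp_sum]
        apply Finset.prod_le_prod
        · intro i _; positivity
        · intro i _
          have := Real.exp_mul_le_cosh_add_mul_sinh
            (abs_cos_le (2 * π * (3 ^ i * ((u : ℝ) / 3 ^ I)))) t
          rw [mul_comm t, mul_comm (Real.sinh t)]
          exact this
    _ = 3 ^ I * Real.cosh t ^ I := riesz _ _ I
    _ ≤ 3 ^ I * Real.exp (I * (t ^ 2 / 2)) := by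
        apply mul_le_mul_of_nonneg_left _ (by positivity)
        rw [Real.exp_nat_mul]
        exact pow_le_pow_left₀ (Real.cosh_pos t).le (Real.cosh_le_exp_half_sq t) _

/-- power moment bound -/
lemma pow_moment (I k : ℕ) (t : ℝ) (ht : 0 < t) :
    ∑ u ∈ range (3 ^ I), S I ((u : ℝ) / 3 ^ I) ^ (2 * k) ≤
      3 ^ I * (2 * ((2 * k).factorial : ℝ) / t ^ (2 * k) * Real.exp (I * (t ^ 2 / 2))) := by
  have hterm : ∀ u ∈ range (3 ^ I), S I ((u : ℝ) / 3 ^ I) ^ (2 * k) ≤
      ((2 * k).factorial : ℝ) / t ^ (2 * k) *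
        (Real.exp (t * S I ((u : ℝ) / 3 ^ I)) + Real.exp ((-t) * S I ((u : ℝ) / 3 ^ I))) := by
    intro u _
    set s := S I ((u : ℝ) / 3 ^ I) with hs
    have h1 := Real.pow_div_factorial_le_exp (|t * s|) (abs_nonneg _) (2 * k)
    rw [(even_two_mul k).pow_abs, mul_pow] at h1
    have h2 : Real.exp |t * s| ≤ Real.exp (t * s) + Real.exp ((-t) * s) := by
      rcases abs_cases (t * s) with h | h
      · rw [h.1]; have := Real.exp_pos ((-t) * s); linarith
      · rw [h.1, neg_mul]; have := Real.exp_pos (t * s); linarith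
    have h3 := h1.trans h2
    have hf : (0 : ℝ) < ((2 * k).factorial : ℝ) := by exact_mod_cast Nat.factorial_pos _
    have ht2 : 0 < t ^ (2 * k) := by positivity
    rw [div_le_iff₀ hf] at h3
    rw [div_mul_eq_mul_div, le_div_iff₀ ht2]
    linarith
  refine (Finset.sum_le_sum hterm).trans ?_
  rw [← Finset.mul_sum, Finset.sum_add_distrib]
  have e1 := exp_moment I t
  have e2 := exp_moment I (-t)
  rw [neg_sq] at e2
  have hc : 0 ≤ ((2 * k).factorial : ℝ) / t ^ (2 * k) := by positivity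
  calc _ ≤ ((2 * k).factorial : ℝ) / t ^ (2 * k) *
        (3 ^ I * Real.exp (I * (t ^ 2 / 2)) + 3 ^ I * Real.exp (I * (t ^ 2 / 2))) :=
        mul_le_mul_of_nonneg_left (add_le_add e1 e2) hc
    _ = _ := by ring

/-- number of words with zero frequency -/
noncomputable def Z (I m : ℕ) : ℕ :=
  (univ.filter (fun w : Fin m → Fin I × Bool => nn w = 0)).card

lemma Z_le (I k : ℕ) (t : ℝ) (ht : 0 < t) :
    (1 / 2 : ℝ) ^ (2 * k) * (Z I (2 * k) : ℝ) ≤
      2 * ((2 * k).factorial : ℝ) / t ^ (2 * k) * Real.exp (I * (t ^ 2 / 2)) := by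
  have h1 := pow_moment I k t ht
  have h2 := moment I (2 * k) (3 ^ I) 1 (by positivity)
  have h3 : (Z I (2 * k) : ℝ) ≤ ((univ.filter (fun w : Fin (2 * k) → Fin I × Bool =>
      ((3 ^ I : ℕ) : ℤ) ∣ ((1 : ℕ) : ℤ) * nn w)).card : ℝ) := by
    unfold Z
    norm_cast
    apply Finset.card_le_card
    intro w hw
    rw [mem_filter] at hw ⊢
    refine ⟨hw.1, ?_⟩
    rw [hw.2]; simp
  have h4 : ∑ p ∈ range (3 ^ I), S I (((1 : ℕ) : ℝ) * ((p : ℝ) / ((3 ^ I : ℕ) : ℝ))) ^ (2 * k) =
      ∑ u ∈ range (3 ^ I), S I ((u : ℝ) / 3 ^ I) ^ (2 * k) := by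
    apply Finset.sum_congr rfl
    intro u _
    push_cast
    rw [one_mul]
  rw [h4] at h2
  rw [h2] at h1
  have h5 : (0 : ℝ) < 3 ^ I := by positivity
  push_cast at h1
  have h6 : (3:ℝ) ^ I * ((1 / 2 : ℝ) ^ (2 * k) * (Z I (2 * k) : ℝ)) ≤
      3 ^ I * (2 * ((2 * k).factorial : ℝ) / t ^ (2 * k) * Real.exp (I * (t ^ 2 / 2))) := by
    refine le_trans ?_ h1
    rw [mul_assoc]
    apply mul_le_mul_of_nonneg_left _ h5.le
    apply mul_le_mul_of_nonneg_left _ (by positivity)
    push_cast at h3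
    exact h3
  exact le_of_mul_le_mul_left h6 h5

end Pool.Agent.W51.CR
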