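import Mathlib

/-!
# Rational points of the middle-third Cantor set: trigonometric input

* `cantor_ineq`: a trigonometric inequality valid on the Cantor set.
* `three_pow_mul`: the Cantor set is invariant under multiplication by `3` modulo one.
-/

set_option autoImplicit false

namespace Pool.Agent.W51.CR

open Finset Real

/-- the lacunary cosine sum -/
noncomputable def S (I : ℕ) (x : ℝ) : ℝ := ∑ i ∈ range I, Real.cos (2 * π * (3 ^ i * x))

lemma step {x : ℝ} (hx : x ∈ cantorSet) : ∃ y ∈ cantorSet, ∃ n : ℤ, 3 * x = y + n := by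
  rw [cantorSet_eq_union_halves] at hx
  rcases hx with ⟨y, hy, h⟩ | ⟨y, hy, h⟩
  · refine ⟨y, hy, 0, ?_⟩
    simp only at h
    rw [← h]; push_cast; ring
  · refine ⟨y, hy, 2, ?_⟩
    simp only at h
    rw [← h]; push_cast; ring

lemma three_pow_mul {x : ℝ} (hx : x ∈ cantorSet) (i : ℕ) :
    ∃ y ∈ cantorSet, ∃ n : ℤ, 3 ^ i * x = y + n := by
  induction i with
  | zero => exact ⟨x, hx, 0, by simp⟩
  | succ i ih =>
    obtain ⟨y, hy, n, h⟩ := ih
    obtain ⟨z, hz, m, h'⟩ := step hy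
    refine ⟨z, hz, m + 3 * n, ?_⟩
    rw [pow_succ]
    have : (3:ℝ) ^ i * 3 * x = 3 * (3 ^ i * x) := by ring
    rw [this, h]
    push_cast
    linarith

lemma mem_thirds {y : ℝ} (hy : y ∈ cantorSet) :
    (0 ≤ y ∧ y ≤ 1 / 3) ∨ (2 / 3 ≤ y ∧ y ≤ 1) := by
  rw [cantorSet_eq_union_halves] at hy
  rcases hy with ⟨z, hz, h⟩ | ⟨z, hz, h⟩
  · have := cantorSet_subset_unitInterval hz
    rw [Set.mem_Icc] at this
    simp only at h
    left; constructor <;> linarith [this.1, this.2]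
  · have := cantorSet_subset_unitInterval hz
    rw [Set.mem_Icc] at this
    simp only at h
    right; constructor <;> linarith [this.1, this.2]

lemma cos_two_pi_thirds : Real.cos (2 * π * (1 / 3)) = - 1 / 2 := by
  have : 2 * π * (1 / 3) = π - π / 3 := by ring
  rw [this, Real.cos_pi_sub, Real.cos_pi_div_three]
  norm_num

lemma cos_ge_aux {y : ℝ} (h0 : 0 ≤ y) (h1 : y ≤ 1 / 3) : - 1 / 2 ≤ Real.cos (2 * π * y) := by
  rw [← cos_two_pi_thirds]
  have hpi := Real.pi_pos
  apply Real.cos_le_cos_of_nonneg_of_le_pi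
  · positivity
  · nlinarith
  · nlinarith

lemma cos_ge {y : ℝ} (hy : y ∈ cantorSet) : - 1 / 2 ≤ Real.cos (2 * π * y) := by
  rcases mem_thirds hy with h | h
  · exact cos_ge_aux h.1 h.2
  · have h2 := cos_ge_aux (y := 1 - y) (by linarith [h.2]) (by linarith [h.1])
    have : 2 * π * (1 - y) = 2 * π - 2 * π * y := by ring
    rwa [this, Real.cos_two_pi_sub] at h2

/-- the basic trigonometric inequality on the Cantor set -/
lemma cantor_ineq {y : ℝ} (hy : y ∈ cantorSet) :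
    1 ≤ 3 * Real.cos (2 * π * y) - 3 * Real.cos (2 * π * (2 * y)) + Real.cos (2 * π * (3 * y)) := by
  have h := cos_ge hy
  set c := Real.cos (2 * π * y) with hc
  have h2 : Real.cos (2 * π * (2 * y)) = 2 * c ^ 2 - 1 := by
    have : 2 * π * (2 * y) = 2 * (2 * π * y) := by ring
    rw [this, Real.cos_two_mul]
  have h3 : Real.cos (2 * π * (3 * y)) = 4 * c ^ 3 - 3 * c := by
    have : 2 * π * (3 * y) = 3 * (2 * π * y) := by ring
    rw [this, Real.cos_three_mul]
  rw [h2, h3]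
  nlinarith [mul_nonneg (by linarith : (0:ℝ) ≤ c + 1/2) (sq_nonneg (1 - c))]

lemma cos_int_shift (y : ℝ) (n : ℤ) : Real.cos (2 * π * (y + n)) = Real.cos (2 * π * y) := by
  have : 2 * π * (y + n) = 2 * π * y + n * (2 * π) := by ring
  rw [this, Real.cos_add_int_mul_two_pi]

/-- For `x` in the Cantor set the combination of the three lacunary sums is at least `I`. -/
lemma sum_ineq {x : ℝ} (hx : x ∈ cantorSet) (I : ℕ) :
    (I : ℝ) ≤ 3 * S I x - 3 * S I (2 * x) + S I (3 * x) := by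
  have h : ∀ i ∈ range I, (1:ℝ) ≤ 3 * Real.cos (2 * π * (3 ^ i * x)) -
      3 * Real.cos (2 * π * (3 ^ i * (2 * x))) + Real.cos (2 * π * (3 ^ i * (3 * x))) := by
    intro i _
    obtain ⟨y, hy, n, hn⟩ := three_pow_mul hx i
    have h2 : (3:ℝ) ^ i * (2 * x) = 2 * y + ((2 * n : ℤ) : ℝ) := by
      push_cast
      have : (3:ℝ) ^ i * (2 * x) = 2 * (3 ^ i * x) := by ring
      rw [this, hn]; ring
    have h3 : (3:ℝ) ^ i * (3 * x) = 3 * y + ((3 * n : ℤ) : ℝ) := by
      push_cast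
      have : (3:ℝ) ^ i * (3 * x) = 3 * (3 ^ i * x) := by ring
      rw [this, hn]; ring
    rw [h2, h3, hn, cos_int_shift, cos_int_shift, cos_int_shift]
    exact cantor_ineq hy
  have := Finset.sum_le_sum h
  simp only [Finset.sum_const, card_range, nsmul_eq_mul, mul_one] at this
  rw [Finset.sum_add_distrib, Finset.sum_sub_distrib, ← Finset.mul_sum, ← Finset.mul_sum] at this
  exact this

/-- Hence one of the three sums is large. -/
lemma pow_ineq {x : ℝ} (hx : x ∈ cantorSet) (I k : ℕ) :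
    ((I : ℝ) / 7) ^ (2 * k) ≤ S I (1 * x) ^ (2 * k) + S I (2 * x) ^ (2 * k) +
      S I (3 * x) ^ (2 * k) := by
  rw [one_mul]
  have h := sum_ineq hx I
  have hev : Even (2 * k) := even_two_mul k
  have n1 : 0 ≤ S I x ^ (2 * k) := hev.pow_nonneg _
  have n2 : 0 ≤ S I (2 * x) ^ (2 * k) := hev.pow_nonneg _
  have n3 : 0 ≤ S I (3 * x) ^ (2 * k) := hev.pow_nonneg _
  have key : ∀ s : ℝ, (I : ℝ) / 7 ≤ |s| → ((I : ℝ) / 7) ^ (2 * k) ≤ s ^ (2 * k) := by
    intro s hs
    rw [← hev.pow_abs s]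
    exact pow_le_pow_left₀ (by positivity) hs _
  by_cases h1 : (I : ℝ) / 7 ≤ |S I x|
  · have := key _ h1; linarith
  by_cases h2 : (I : ℝ) / 7 ≤ |S I (2 * x)|
  · have := key _ h2; linarith
  by_cases h3 : (I : ℝ) / 7 ≤ |S I (3 * x)|
  · have := key _ h3; linarith
  exfalso
  push Not at h1 h2 h3
  rw [abs_lt] at h1 h2 h3
  linarith [h1.1, h1.2, h2.1, h2.2, h3.1, h3.2]

end Pool.Agent.W51.CR
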